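import Pool.Agent.Helper97_MT.Ass
import Pool.Agent.MTL.All

/-!
# The Mumford-Tate conjecture for one hundred percent of the fibres of the hypergeometric Calabi-Yau
families of odd weight

A datum `D` is `s ≥ 2`, rational numbers `α₁, …, αₛ` in `(0,1)` and a rational `λ > 0`.  It gives the
hypergeometric operator `θʳ - λ z ∏ (θ + αᵢ)(θ + 1 - αᵢ)`, `r = 2 s`, `θ = z d/dz`, the Picard-Fuchs
operator of the mirror quintic threefolds (`s = 2`, `α = (1/5, 2/5)`, `λ = 5⁵`), of the other thirteen
hypergeometric families of Calabi-Yau threefolds with `h²¹ = 1`, of the mirrors of the Dwork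
hypersurfaces of all odd dimensions, ...  `W D x` is its fundamental matrix at `z = 1/x`: row `a` is
`θᵃ` of the Frobenius basis at `z = 0`.  The rational structure on the solutions is given by an
ARBITRARY matrix `P ∈ GL_r(ℂ)`, so `perx D P x a = P (θᵃ ω)(1/x)` is the vector of the periods of `θᵃ ω`.
The parameter is `x = φ(n)`, `φ` any rational polynomial with positive leading coefficient which is
`≤ λ` somewhere on the real line (`φ = X`: all integral values of `1/z`; `φ = λ Xʳ⁺¹`: the Dwork pencils
at integral parameters).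

On the `ℓ`-adic side `ρ` is a continuous representation of the Galois group of `ℚ(t)` (for the family
over the `t`-line, `z = 1/φ(t)`) and `ρn` is its specialisation at `t = n` (`Pool/Agent/MTL/Defs.lean`).
-/

set_option autoImplicit false

namespace Pool.Agent.Helper97_MTP.HypergeometricCalabiYau

open Matrix Polynomial Pool.Agent.MT100 Pool.Agent.MTL Pool.Agent.Helper78_MT

universe u

/-- For every hypergeometric datum `D` of order `r = 2 s ≥ 4` and every admissible polynomial `φ` there
is a function `n1` such that for every rational structure `P` there is a set `S` of natural numbers of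
density zero, with at most `(r(r+1)/2)²` elements in every window `(n-K, n]`, `n ≥ n1 K`, such that:
for every `n ∉ S` with `φ(n) > λ`, every polarised rational Hodge structure `(V, E)` of weight `r - 1`
whose Hodge filtration is given by the periods at `z = 1/φ(n)` has Mumford-Tate group `GSp(E)`; and for
every prime `ℓ` and every continuous representation `ρ` of the Galois group of `ℚ(t)` with coefficients
in `ℚ_ℓ` there is a set `T` of natural numbers of density zero such that for `n ∉ S ∪ T` with
`φ(n) > λ`, if `ρ` has a big monodromy group, the identity component of the Zariski closure of the image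
of the specialisation `ρn` of `ρ` at `t = n` is the Mumford-Tate group of `V`. -/
theorem result (D : Dat) (φ : ℚ[X]) (hφ : Adm D φ) :
    ∃ n1 : ℕ → ℕ, ∀ P : Matrix (Fin D.r) (Fin D.r) ℂ, IsUnit P.det →
      ∃ S : Set ℕ, DensZero S ∧
        (∀ K n : ℕ, n1 K ≤ n →
          Nat.card {m : ℕ // m ∈ S ∧ n < m + K ∧ m ≤ n} ≤ (D.r * (D.r + 1) / 2) ^ 2) ∧
        (∀ n : ℕ, n ∉ S →
          ∀ (E : Matrix (Fin D.r) (Fin D.r) ℚ) (V : ℕ → Submodule ℂ (Fin D.r → ℂ)),
            (D.lam : ℝ) < pv φ n ∧ PolHodge (D.r - 1) E V ∧ HasPer D P (pv φ n) V →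
            ∀ (K : Type u) [Field K] [CharZero K], mtGroup (D.r - 1) V K = similitudes E K) ∧
        ∀ (ℓ : ℕ) [Fact ℓ.Prime] (ρ : GT →* GL (Fin D.r) ℚ_[ℓ]), Continuous ρ →
          ∃ T : Set ℕ, DensZero T ∧ ∀ n : ℕ, n ∉ S → n ∉ T →
            ∀ (E : Matrix (Fin D.r) (Fin D.r) ℚ) (V : ℕ → Submodule ℂ (Fin D.r → ℂ)),
              BigMonodromy E ρ →
              (D.lam : ℝ) < pv φ n ∧ PolHodge (D.r - 1) E V ∧ HasPer D P (pv φ n) V →
              ∀ ρn : GQ →* GL (Fin D.r) ℚ_[ℓ], Specializes ρ n ρn →
                ∀ (K : Type u) [Field K] [CharZero K] [Algebra ℚ_[ℓ] K],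
                  monodromy ρn K = mtGroup (D.r - 1) V K := by
  obtain ⟨n1, h⟩ := H97.mainP.{u, 0} D φ hφ
  refine ⟨n1, fun P hP => ?_⟩
  obtain ⟨S, hS, hw, h2⟩ := h P hP
  exact ⟨S, hS, hw, upgrade.{u} serAll (D.r - 1)
    (fun n E V => (D.lam : ℝ) < pv φ n ∧ PolHodge (D.r - 1) E V ∧ HasPer D P (pv φ n) V)
    (fun E K _ _ => similitudes E K) S fun n hn E V hV => h2 n hV.1 hn E V hV.2.1 hV.2.2⟩

/-- Not a part of the result, only a check that it is not empty (`φ = X`): for every datum there are a
rational structure `P` and a form `E` such that for all large `n` a polarised Hodge structure with these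
periods exists. -/
theorem nonvacuous (D : Dat) :
    ∃ (P : Matrix (Fin D.r) (Fin D.r) ℂ) (E : Matrix (Fin D.r) (Fin D.r) ℚ) (n0 : ℕ),
      IsUnit P.det ∧ ∀ n : ℕ, n0 ≤ n → ∃ V : ℕ → Submodule ℂ (Fin D.r → ℂ),
        PolHodge (D.r - 1) E V ∧ HasPer D P (n : ℝ) V :=
  H97.nva' D

end Pool.Agent.Helper97_MTP.HypergeometricCalabiYau
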